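import Pool.Agent.Helper82.BR.St4

/-!
# Project BR8 (MP_514f88_co), module KR: both of Kelly's sets (after helper48's KEL)
-/

set_option autoImplicit false

namespace Pool.Agent.Helper68.BR

open Pool.Agent.Helper82.BR

/-- coordinates `(x0 + x1 r, y0 + y1 r)` -/
private def pts : Fin 8 → (ℤ × ℤ) × (ℤ × ℤ) :=
  ![((1, 0), (1, 0)), ((-1, 0), (1, 0)), ((1, 0), (-1, 0)), ((-1, 0), (-1, 0)),
    ((1, 1), (0, 0)), ((-1, -1), (0, 0)), ((0, 0), (1, 1)), ((0, 0), (-1, -1))]

/-- squared distances in `ℤ[r]` -/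
private def dd (i j : Fin 8) : ℤ × ℤ :=
  (((pts i).1.1 - (pts j).1.1) ^ 2 + 3 * ((pts i).1.2 - (pts j).1.2) ^ 2 +
    ((pts i).2.1 - (pts j).2.1) ^ 2 + 3 * ((pts i).2.2 - (pts j).2.2) ^ 2,
   2 * ((pts i).1.1 - (pts j).1.1) * ((pts i).1.2 - (pts j).1.2) +
    2 * ((pts i).2.1 - (pts j).2.1) * ((pts i).2.2 - (pts j).2.2))

private noncomputable def f (r : ℝ) (i : Fin 8) : ℂ :=
  ⟨((pts i).1.1 : ℝ) + (pts i).1.2 * r, ((pts i).2.1 : ℝ) + (pts i).2.2 * r⟩

private lemma key : ∀ i j : Fin 8, i ≠ j → ∃ k l : Fin 8, k ≠ l ∧ dd k i = dd k j ∧ dd l i = dd l j := by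
  decide +kernel

private lemma inj0 : ∀ i j : Fin 8, pts i = pts j → i = j := by
  decide +kernel

private lemma nsq {r : ℝ} (s3 : r * r = 3) (i j : Fin 8) :
    Complex.normSq (f r i - f r j) = ((dd i j).1 : ℝ) + (dd i j).2 * r := by
  rw [Complex.normSq_apply, Complex.sub_re, Complex.sub_im]
  simp only [f, dd]
  push_cast
  linear_combination (((pts i).1.2 - (pts j).1.2 : ℝ) ^ 2 + ((pts i).2.2 - (pts j).2.2 : ℝ) ^ 2) * s3

private lemma zero_of {r : ℝ} (hr : Irrational r) {a b : ℤ} (h : (a : ℝ) + b * r = 0) :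
    a = 0 ∧ b = 0 := by
  have hb : b = 0 := by
    by_contra hb
    have hb' : (b : ℝ) ≠ 0 := by exact_mod_cast hb
    refine hr ⟨(-a : ℚ) / b, ?_⟩
    push_cast
    rw [div_eq_iff hb']
    linarith
  subst hb
  have ha : (a : ℝ) = 0 := by simpa using h
  exact ⟨by exact_mod_cast ha, rfl⟩

private lemma inj {r : ℝ} (hr : Irrational r) : Function.Injective (f r) := by
  intro i j h
  apply inj0
  have h1 : ((pts i).1.1 : ℝ) + (pts i).1.2 * r = ((pts j).1.1 : ℝ) + (pts j).1.2 * r :=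
    congrArg Complex.re h
  have h2 : ((pts i).2.1 : ℝ) + (pts i).2.2 * r = ((pts j).2.1 : ℝ) + (pts j).2.2 * r :=
    congrArg Complex.im h
  have a1 : (pts i).1.1 - (pts j).1.1 = 0 ∧ (pts i).1.2 - (pts j).1.2 = 0 := by
    apply zero_of hr
    push_cast
    linarith
  have a2 : (pts i).2.1 - (pts j).2.1 = 0 ∧ (pts i).2.2 - (pts j).2.2 = 0 := by
    apply zero_of hr
    push_cast
    linarith
  refine Prod.ext (Prod.ext ?_ ?_) (Prod.ext ?_ ?_)
  · exact sub_eq_zero.1 a1.1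
  · exact sub_eq_zero.1 a1.2
  · exact sub_eq_zero.1 a2.1
  · exact sub_eq_zero.1 a2.2

private lemma deq {r : ℝ} (s3 : r * r = 3) {k i j : Fin 8} (h : dd k i = dd k j) :
    dist (f r k) (f r i) = dist (f r k) (f r j) := by
  rw [Complex.dist_eq, Complex.dist_eq, Complex.norm_def, Complex.norm_def, nsq s3, nsq s3, h]

private lemma KC_eq (r : ℝ) : KC (1 + r) = Finset.univ.image (f r) := by
  have e : (Finset.univ : Finset (Fin 8)) = {0, 1, 2, 3, 4, 5, 6, 7} := by decide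
  rw [e]
  simp only [Finset.image_insert, Finset.image_singleton, KC]
  have h0 : f r 0 = 1 + Complex.I := by
    apply Complex.ext <;> simp [f, pts]
  have h1 : f r 1 = -1 + Complex.I := by
    apply Complex.ext <;> simp [f, pts]
  have h2 : f r 2 = 1 - Complex.I := by
    apply Complex.ext <;> simp [f, pts]
  have h3 : f r 3 = -1 - Complex.I := by
    apply Complex.ext <;> simp [f, pts]
  have h4 : f r 4 = ((1 + r : ℝ) : ℂ) := by
    apply Complex.ext <;> simp [f, pts]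
  have h5 : f r 5 = -((1 + r : ℝ) : ℂ) := by
    apply Complex.ext <;> simp [f, pts] <;> ring
  have h6 : f r 6 = ((1 + r : ℝ) : ℂ) * Complex.I := by
    apply Complex.ext <;> simp [f, pts]
  have h7 : f r 7 = -(((1 + r : ℝ) : ℂ) * Complex.I) := by
    apply Complex.ext <;> simp [f, pts] <;> ring
  rw [h0, h1, h2, h3, h4, h5, h6, h7]

private lemma main {r : ℝ} (s3 : r * r = 3) (hr : Irrational r) :
    Rich (KC (1 + r)) ∧ (KC (1 + r)).card = 8 := by
  classical
  rw [KC_eq]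
  refine ⟨?_, ?_⟩
  · intro p hp q hq hpq
    obtain ⟨i, -, rfl⟩ := Finset.mem_image.1 hp
    obtain ⟨j, -, rfl⟩ := Finset.mem_image.1 hq
    obtain ⟨k, l, hkl, hk, hl⟩ := key i j (fun h => hpq (by rw [h]))
    refine Finset.one_lt_card.2 ⟨f r k, ?_, f r l, ?_, fun h => hkl (inj hr h)⟩
    · exact Finset.mem_filter.2 ⟨Finset.mem_image_of_mem _ (Finset.mem_univ _), deq s3 hk⟩
    · exact Finset.mem_filter.2 ⟨Finset.mem_image_of_mem _ (Finset.mem_univ _), deq s3 hl⟩
  · rw [Finset.card_image_of_injective _ (inj hr)]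
    rfl

/-- KR. -/
theorem hKR : StKR := by
  have s3 : √3 * √3 = (3 : ℝ) := Real.mul_self_sqrt (by norm_num)
  have hirr : Irrational (√3 : ℝ) := by
    have := Nat.Prime.irrational_sqrt (show Nat.Prime 3 by norm_num)
    exact_mod_cast this
  rintro h (rfl | rfl)
  · exact main s3 hirr
  · rw [sub_eq_add_neg]
    exact main (by rw [neg_mul_neg]; exact s3) hirr.neg

end Pool.Agent.Helper68.BR
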